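import Pool.Agent.ANO3.Cnt.Close

/-!
# ANO5, module Conc: the closing lemma for periodic pseudo-orbits (package CONC-CLOSE)

`D` is a group of isometries which is normalized by `T` (`Norm D T`,
`Pool/Agent/ANO3/Cnt/Norm.lean`).

`closing_seq`.  PROOF.  (The same as `Pool.Agent.ANO3.Cnt.closing`, see the proof there, for a
general sequence.)  Let `e > 0` be the constant of `Expansive T`, `ε' = min ε (e / 2)` and `δ` the
constant of `Shadowing T` for `ε'`.  Given `a ∈ D`, `n > 0` and `x : ℕ → X` with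
`dist (T (x j)) (x (j + 1)) ≤ δ` for `j + 1 < n` and `dist (a (T (x (n - 1)))) (x 0) ≤ δ`, extend
`x` to `y : ℤ → X` as follows.  Let `Tp : Equiv.Perm X` be `T`, `G = a * Tp ^ n`.  For `q : ℤ` the
element `A_q = Tp ^ (n q) * G ^ (-q)` is in `D` (`Int.induction_on`, as in the proof of `closing`).
For `i = n q + s`, `0 ≤ s < n` put `y i = (Tp ^ i * G ^ (-q) * Tp ^ (-s)) (x s)`; since
`Tp ^ i * G ^ (-q) * Tp ^ (-s) = Tp ^ s * A_q * Tp ^ (-s) ∈ D` (conjugates of elements of `D` by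
powers of `Tp` are in `D`, `Norm.zpow`) this is `c_i (x s)` with `c_i ∈ D`.
* `dist (T (y i)) (y (i + 1)) ≤ δ`: if `s + 1 < n` then `T (y i) = c_(i+1) (T (x s))` because
  `Tp * Tp ^ i * G ^ (-q) * Tp ^ (-s) = (Tp ^ (i+1) * G ^ (-q) * Tp ^ (-(s+1))) * Tp`, so the
  distance is `dist (T (x s)) (x (s + 1)) ≤ δ` (isometry).  If `s = n - 1` then `i + 1 = n (q + 1)`,
  `y (i + 1) = A_(q+1) (x 0)`, `T (y i) = (Tp ^ (n (q+1)) * G ^ (-q) * Tp ^ (-n)) (T (x (n-1)))`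
  and `G ^ (-q) * Tp ^ (-n) = G ^ (-(q+1)) * (G * Tp ^ (-n)) = G ^ (-(q+1)) * a`, so
  `T (y i) = A_(q+1) (a (T (x (n-1))))`.
* `B_i (y (i + n)) = y i` with `B_i = Tp ^ i * a * Tp ^ (-i) ∈ D`:
  `B_i * Tp ^ (i+n) * G ^ (-q-1) = Tp ^ i * a * Tp ^ n * G ^ (-q-1) = Tp ^ i * G ^ (-q)`.
Let `c` shadow `y`.  As in `closing`: `(T ^ i) (G c) = B_i ((T ^ (i + n)) c)`, so `G c = c`, and
`dist ((T ^ j) c) (x j) ≤ ε` for `0 ≤ j < n` (`c_j = 1`).
-/

set_option autoImplicit false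

open Set Filter Topology

namespace Pool.Agent.ANO5.Conc

open Pool.Agent.ANO.Dyn Pool.Agent.ANO3.Cnt

variable {X : Type} [MetricSpace X] {D : Subgroup (Equiv.Perm X)} {T : X ≃ₜ X}

/-- The permutation of a homeomorphism. -/
private def toPermCloseSeq : (X ≃ₜ X) →* Equiv.Perm X where
  toFun := Homeomorph.toEquiv
  map_one' := rfl
  map_mul' := fun _ _ => rfl

private theorem zpow_apply_CloseSeq (i : ℤ) (x : X) :
    (T ^ i) x = (toPermCloseSeq T ^ i) x := by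
  rw [← map_zpow]
  rfl

private theorem conj_CloseSeq (h : Norm D T) {b : Equiv.Perm X} (hb : b ∈ D) (i : ℤ) :
    toPermCloseSeq T ^ i * b * toPermCloseSeq T ^ (-i) ∈ D := by
  obtain ⟨a', ha', H⟩ := h.zpow i b hb
  have e : toPermCloseSeq T ^ i * b * toPermCloseSeq T ^ (-i) = a' := by
    ext x
    change (toPermCloseSeq T ^ i) (b ((toPermCloseSeq T ^ (-i)) x)) = a' x
    rw [← zpow_apply_CloseSeq, H, zpow_apply_CloseSeq]
    congr 1
    change (toPermCloseSeq T ^ i * toPermCloseSeq T ^ (-i)) x = x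
    rw [← zpow_add, add_neg_cancel, zpow_zero]
    rfl
  rw [e]
  exact ha'

private theorem mem_A_CloseSeq (h : Norm D T) {a G : Equiv.Perm X} (ha : a ∈ D) {n : ℤ}
    (hG : G = a * toPermCloseSeq T ^ n) (q : ℤ) :
    toPermCloseSeq T ^ (n * q) * G ^ (-q) ∈ D := by
  have hG' : G⁻¹ = toPermCloseSeq T ^ (-n) * a⁻¹ := by
    rw [hG, mul_inv_rev, zpow_neg]
  induction q using Int.induction_on with
  | zero =>
    have e : toPermCloseSeq T ^ (n * 0) * G ^ (-(0 : ℤ)) = 1 := by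
      rw [mul_zero, neg_zero, zpow_zero, zpow_zero, one_mul]
    rw [e]
    exact D.one_mem
  | succ k ih =>
    have e : toPermCloseSeq T ^ (n * ((k : ℤ) + 1)) * G ^ (-((k : ℤ) + 1)) =
        (toPermCloseSeq T ^ n * (toPermCloseSeq T ^ (n * (k : ℤ)) * G ^ (-(k : ℤ))) *
          toPermCloseSeq T ^ (-n)) * a⁻¹ := by
      have e1 : G ^ (-((k : ℤ) + 1)) = G ^ (-(k : ℤ)) * G⁻¹ := by
        rw [neg_add, zpow_add, zpow_neg_one]
      have e2 : toPermCloseSeq T ^ (n * ((k : ℤ) + 1)) =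
          toPermCloseSeq T ^ n * toPermCloseSeq T ^ (n * (k : ℤ)) := by
        rw [← zpow_add]
        congr 1
        ring
      rw [e1, e2, hG']
      simp only [mul_assoc]
    rw [e]
    exact D.mul_mem (conj_CloseSeq h ih n) (D.inv_mem ha)
  | pred k ih =>
    have e : toPermCloseSeq T ^ (n * (-(k : ℤ) - 1)) * G ^ (-(-(k : ℤ) - 1)) =
        toPermCloseSeq T ^ (-n) * ((toPermCloseSeq T ^ (n * (-(k : ℤ))) *
          G ^ (-(-(k : ℤ)))) * a) * toPermCloseSeq T ^ (-(-n)) := by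
      have e1 : G ^ (-(-(k : ℤ) - 1)) = G ^ (-(-(k : ℤ))) * G := by
        rw [← zpow_add_one]
        congr 1
        ring
      have e2 : toPermCloseSeq T ^ (n * (-(k : ℤ) - 1)) =
          toPermCloseSeq T ^ (-n) * toPermCloseSeq T ^ (n * (-(k : ℤ))) := by
        rw [← zpow_add]
        congr 1
        ring
      rw [e1, e2, neg_neg n]
      nth_rewrite 2 [hG]
      simp only [mul_assoc]
    rw [e]
    exact conj_CloseSeq h (D.mul_mem ih ha) (-n)

theorem closing_seq (h : Norm D T) (he : Expansive T) (hs : Shadowing T) {ε : ℝ} (hε : 0 < ε) :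
    ∃ δ > 0, ∀ a ∈ D, ∀ (n : ℕ) (x : ℕ → X), 0 < n →
      (∀ j, j + 1 < n → dist (T (x j)) (x (j + 1)) ≤ δ) → dist (a (T (x (n - 1)))) (x 0) ≤ δ →
      ∃ c, a ((T ^ n) c) = c ∧ ∀ j : ℕ, j < n → dist ((T ^ j) c) (x j) ≤ ε := by
  obtain ⟨e, he0, he⟩ := he
  obtain ⟨δ, hδ, hs⟩ := hs (min ε (e / 2)) (lt_min hε (by linarith))
  refine ⟨δ, hδ, fun a ha n x hn hx hx' => ?_⟩
  have hn' : (0 : ℤ) < n := by exact_mod_cast hn
  obtain ⟨P, hP⟩ : ∃ P : Equiv.Perm X, P = toPermCloseSeq T := ⟨_, rfl⟩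
  obtain ⟨G, hG⟩ : ∃ G : Equiv.Perm X, G = a * P ^ (n : ℤ) := ⟨_, rfl⟩
  have hz : ∀ (i : ℤ) (y : X), (T ^ i) y = (P ^ i) y := fun i y => by
    rw [hP]
    exact zpow_apply_CloseSeq i y
  have hT1 : ∀ y, T y = P y := fun y => by
    rw [hP]
    rfl
  have hA : ∀ q : ℤ, P ^ ((n : ℤ) * q) * G ^ (-q) ∈ D := fun q => by
    rw [hP] at hG ⊢
    exact mem_A_CloseSeq h ha hG q
  have hGx : ∀ y, G y = a ((T ^ n) y) := fun y => by
    have h1 : (T ^ n) y = (P ^ (n : ℤ)) y := by rw [← hz, zpow_natCast]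
    rw [h1, hG]
    rfl
  have hC : ∀ (q : ℤ) (s : ℕ), P ^ ((s : ℤ) + n * q) * G ^ (-q) * P ^ (-(s : ℤ)) ∈ D := by
    intro q s
    have h1 : P ^ ((s : ℤ) + n * q) * G ^ (-q) * P ^ (-(s : ℤ)) =
        P ^ (s : ℤ) * (P ^ ((n : ℤ) * q) * G ^ (-q)) * P ^ (-(s : ℤ)) := by
      rw [zpow_add]
      simp only [mul_assoc]
    rw [h1]
    have h2 := hA q
    rw [hP] at h2 ⊢
    exact conj_CloseSeq h h2 s
  obtain ⟨xs, hxs⟩ : ∃ xs : ℤ → X, ∀ i, xs i =
      (P ^ i * G ^ (-(i / (n : ℤ))) * P ^ (-(i % (n : ℤ)))) (x (i % (n : ℤ)).toNat) :=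
    ⟨_, fun _ => rfl⟩
  have hrep : ∀ i : ℤ, ∃ (q : ℤ) (s : ℕ), s < n ∧ i = s + n * q := by
    intro i
    have h1 := Int.emod_nonneg i hn'.ne'
    have h2 := Int.emod_lt_of_pos i hn'
    have h3 := (Int.emod_add_mul_ediv i n).symm
    refine ⟨i / n, (i % n).toNat, by omega, ?_⟩
    rw [Int.toNat_of_nonneg h1]
    exact h3
  have hval : ∀ (q : ℤ) (s : ℕ), s < n →
      xs (s + n * q) = (P ^ ((s : ℤ) + n * q) * G ^ (-q) * P ^ (-(s : ℤ))) (x s) := by
    intro q s hsn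
    have h1 := (Int.ediv_emod_unique (a := (s : ℤ) + n * q) (q := q) (r := (s : ℤ)) hn').mpr
      ⟨rfl, by positivity, by exact_mod_cast hsn⟩
    rw [hxs, h1.1, h1.2, Int.toNat_natCast]
  have step : ∀ i, dist (T (xs i)) (xs (i + 1)) ≤ δ := by
    intro i
    obtain ⟨q, s, hsn, rfl⟩ := hrep i
    rw [hval q s hsn, hT1]
    rcases lt_or_ge (s + 1) n with h3 | h3
    · have h4 : (s : ℤ) + n * q + 1 = ((s + 1 : ℕ) : ℤ) + n * q := by
        push_cast
        ring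
      rw [h4, hval q (s + 1) h3]
      have h5 : P ((P ^ ((s : ℤ) + n * q) * G ^ (-q) * P ^ (-(s : ℤ))) (x s)) =
          (P ^ (((s + 1 : ℕ) : ℤ) + n * q) * G ^ (-q) * P ^ (-((s + 1 : ℕ) : ℤ))) (P (x s)) := by
        change (P * (P ^ ((s : ℤ) + n * q) * G ^ (-q) * P ^ (-(s : ℤ)))) (x s) =
          (P ^ (((s + 1 : ℕ) : ℤ) + n * q) * G ^ (-q) * P ^ (-((s + 1 : ℕ) : ℤ)) * P) (x s)
        congr 1
        have h6 : P ^ (((s + 1 : ℕ) : ℤ) + n * q) = P * P ^ ((s : ℤ) + n * q) := by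
          rw [← h4, add_comm _ (1 : ℤ), zpow_one_add]
        have h7 : P ^ (-(s : ℤ)) = P ^ (-((s + 1 : ℕ) : ℤ)) * P := by
          rw [← zpow_add_one]
          congr 1
          push_cast
          ring
        rw [h6, h7]
        simp only [mul_assoc]
      rw [h5, h.iso _ (hC q (s + 1)), ← hT1]
      exact hx s h3
    · have h4 : s + 1 = n := by omega
      have h5 : (s : ℤ) + n * q + 1 = ((0 : ℕ) : ℤ) + n * (q + 1) := by
        have h6 : (n : ℤ) = s + 1 := by exact_mod_cast h4.symm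
        rw [h6]
        push_cast
        ring
      rw [h5, hval (q + 1) 0 hn]
      have h5' : P ((P ^ ((s : ℤ) + n * q) * G ^ (-q) * P ^ (-(s : ℤ))) (x s)) =
          (P ^ (((0 : ℕ) : ℤ) + n * (q + 1)) * G ^ (-(q + 1)) * P ^ (-((0 : ℕ) : ℤ)))
            (a (P (x s))) := by
        change (P * (P ^ ((s : ℤ) + n * q) * G ^ (-q) * P ^ (-(s : ℤ)))) (x s) =
          (P ^ (((0 : ℕ) : ℤ) + n * (q + 1)) * G ^ (-(q + 1)) * P ^ (-((0 : ℕ) : ℤ)) *
            (a * P)) (x s)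
        congr 1
        have h6 : P ^ (((0 : ℕ) : ℤ) + n * (q + 1)) = P * P ^ ((s : ℤ) + n * q) := by
          rw [← h5, add_comm _ (1 : ℤ), zpow_one_add]
        have h7 : P ^ (-((0 : ℕ) : ℤ)) = 1 := by
          rw [Nat.cast_zero, neg_zero, zpow_zero]
        have h8 : a = G * P ^ (-(n : ℤ)) := by
          rw [hG, mul_assoc, ← zpow_add, add_neg_cancel, zpow_zero, mul_one]
        have h9 : P ^ (-(s : ℤ)) = P ^ (-(n : ℤ)) * P := by
          rw [← zpow_add_one]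
          congr 1
          have h6 : (n : ℤ) = s + 1 := by exact_mod_cast h4.symm
          rw [h6]
          ring
        have h10 : G ^ (-q) = G ^ (-(q + 1)) * G := by
          rw [← zpow_add_one]
          congr 1
          ring
        rw [h6, h7, h9, h10, mul_one, h8]
        simp only [mul_assoc]
      rw [h5', h.iso _ (hC (q + 1) 0), ← hT1]
      have h11 : s = n - 1 := by omega
      rw [h11]
      exact hx'
  obtain ⟨c, hc⟩ := hs xs step
  have hB : ∀ i : ℤ, P ^ i * a * P ^ (-i) ∈ D := by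
    intro i
    rw [hP]
    exact conj_CloseSeq h ha i
  have hBx : ∀ i : ℤ, (P ^ i * a * P ^ (-i)) (xs (i + n)) = xs i := by
    intro i
    obtain ⟨q, s, hsn, rfl⟩ := hrep i
    have h1 : (s : ℤ) + n * q + n = s + n * (q + 1) := by ring
    rw [h1, hval q s hsn, hval (q + 1) s hsn]
    change (P ^ ((s : ℤ) + n * q) * a * P ^ (-((s : ℤ) + n * q)) *
      (P ^ ((s : ℤ) + n * (q + 1)) * G ^ (-(q + 1)) * P ^ (-(s : ℤ)))) (x s) = _
    congr 1
    have h2 : P ^ ((s : ℤ) + n * (q + 1)) = P ^ ((s : ℤ) + n * q) * P ^ (n : ℤ) := by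
      rw [← zpow_add]
      congr 1
      ring
    have h3 : G ^ (-q) = G * G ^ (-(q + 1)) := by
      rw [← zpow_one_add]
      congr 1
      ring
    have h4 : P ^ (-((s : ℤ) + n * q)) * P ^ ((s : ℤ) + n * q) = 1 := by
      rw [← zpow_add, neg_add_cancel, zpow_zero]
    have h5 : P ^ ((s : ℤ) + n * q) * a * P ^ (-((s : ℤ) + n * q)) *
        (P ^ ((s : ℤ) + n * q) * P ^ (n : ℤ) * G ^ (-(q + 1)) * P ^ (-(s : ℤ))) =
        P ^ ((s : ℤ) + n * q) * (a * (P ^ (-((s : ℤ) + n * q)) * P ^ ((s : ℤ) + n * q)) *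
          P ^ (n : ℤ)) * G ^ (-(q + 1)) * P ^ (-(s : ℤ)) := by
      simp only [mul_assoc]
    rw [h2, h5, h4, mul_one, ← hG, h3]
    simp only [mul_assoc]
  have hGc : G c = c := by
    refine he _ _ fun j => ?_
    have h1 : (T ^ j) (G c) = (P ^ j * a * P ^ (-j)) ((T ^ (j + n)) c) := by
      rw [hz, hz]
      change (P ^ j * G) c = (P ^ j * a * P ^ (-j) * P ^ (j + n)) c
      rw [mul_assoc (P ^ j * a), ← zpow_add, neg_add_cancel_left, hG]
      simp only [mul_assoc]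
    have h2 : dist ((T ^ j) (G c)) (xs j) ≤ e / 2 := by
      rw [h1, ← hBx j, h.iso _ (hB j)]
      exact (hc (j + n)).trans (min_le_right _ _)
    have h3 := (hc j).trans (min_le_right _ _)
    calc dist ((T ^ j) (G c)) ((T ^ j) c)
        ≤ dist ((T ^ j) (G c)) (xs j) + dist ((T ^ j) c) (xs j) := dist_triangle_right _ _ _
      _ ≤ e / 2 + e / 2 := add_le_add h2 h3
      _ = e := by ring
  refine ⟨c, by rw [← hGx]; exact hGc, fun j hj => ?_⟩
  have h1 := (hc (j : ℤ)).trans (min_le_left _ _)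
  have h2 : xs (j : ℤ) = x j := by
    have h3 := hval 0 j hj
    rw [mul_zero, add_zero, neg_zero, zpow_zero, mul_one, ← zpow_add, add_neg_cancel,
      zpow_zero] at h3
    exact h3
  rw [h2, zpow_natCast] at h1
  exact h1

/-- Two orbits of length `n` with the starting points `p`, `q`, the second one translated by
`b ∈ D`. -/
theorem closing_two (h : Norm D T) (he : Expansive T) (hs : Shadowing T) {ε : ℝ} (hε : 0 < ε) :
    ∃ δ > 0, ∀ a ∈ D, ∀ (n : ℕ) (p q : X), 0 < n → dist ((T ^ n) p) q ≤ δ →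
      dist (a ((T ^ n) q)) p ≤ δ →
      ∃ c, a ((T ^ (2 * n)) c) = c ∧ (∀ j : ℕ, j < n → dist ((T ^ j) c) ((T ^ j) p) ≤ ε) ∧
        ∀ j : ℕ, j < n → dist ((T ^ (n + j)) c) ((T ^ j) q) ≤ ε := by
  obtain ⟨δ, hδ, h1⟩ := closing_seq h he hs hε
  refine ⟨δ, hδ, fun a ha n p q hn hpq hqp => ?_⟩
  have hT : ∀ (j : ℕ) (z : X), T ((T ^ j) z) = (T ^ (j + 1)) z := by
    intro j z
    rw [pow_succ']
    rfl
  obtain ⟨x, hx⟩ : ∃ x : ℕ → X, ∀ j, x j = if j < n then (T ^ j) p else (T ^ (j - n)) q :=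
    ⟨_, fun _ => rfl⟩
  have e1 : ∀ j, j + 1 < 2 * n → dist (T (x j)) (x (j + 1)) ≤ δ := by
    intro j hj
    rw [hx, hx]
    rcases lt_trichotomy (j + 1) n with h2 | h2 | h2
    · rw [if_pos (by omega), if_pos h2, hT, dist_self]
      exact hδ.le
    · rw [if_pos (by omega), if_neg (by omega), hT, h2, Nat.sub_self]
      exact hpq
    · rw [if_neg (by omega), if_neg (by omega), hT]
      have h3 : j - n + 1 = j + 1 - n := by omega
      rw [h3, dist_self]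
      exact hδ.le
  have e2 : dist (a (T (x (2 * n - 1)))) (x 0) ≤ δ := by
    rw [hx, hx, if_neg (by omega), if_pos hn, hT]
    have h3 : 2 * n - 1 - n + 1 = n := by omega
    rw [h3]
    exact hqp
  obtain ⟨c, hc, hc'⟩ := h1 a ha (2 * n) x (by omega) e1 e2
  refine ⟨c, hc, fun j hj => ?_, fun j hj => ?_⟩
  · have h2 := hc' j (by omega)
    rwa [hx, if_pos hj] at h2
  · have h2 := hc' (n + j) (by omega)
    rwa [hx, if_neg (by omega), Nat.add_sub_cancel_left] at h2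

end Pool.Agent.ANO5.Conc
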