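import Pool.Agent.ANO5.Conc.Rel

/-!
# ANO5, module Conc: the numbers of periodic points are supermultiplicative (package CONC-MAIN)

See `Rel.lean` for the definitions, the statements `exists_rel` and `rel_inj` and the idea.

PROOF OF `concat`.  Let `δ` be the constant of `closing_two` for `ε`, `η' = min η δ`, and cover `K`
by `Q₀` balls of radius `η' / 2`.  Fix `n > 0`.  For a finite set `s` of orbits in `perN D T n`
choose a representative in `K` of each orbit; one of the balls contains at least `|s| / Q₀` of them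
(`Finset.exists_le_card_fiber_of_mul_le_card_of_maps_to` or similar), a set `A` of points of
`perN D T n` in pairwise different orbits, with mutual distances `≤ η'`.  For `(p, q) ∈ A × A` let
`c(p, q)` be the point of `exists_rel`; by `rel_inj` the orbits of the `c(p, q)` are pairwise
different and they are in `perN D T (2 n)`.  So `P (2 n) ≥ |A| ^ 2 ≥ (|s| / Q₀) ^ 2`, i.e.
`|s| * |s| ≤ Q₀ ^ 2 * P (2 n)`.  If `P n` is finite take `s` = all orbits; if it is infinite then
`P (2 n)` is infinite as well (`s` arbitrarily large) and `Q ≥ 1`; take `Q = Q₀ ^ 2 + 1`.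
-/

set_option autoImplicit false

open Set Filter Topology

namespace Pool.Agent.ANO5.Conc

open Pool.Agent.ANO.Dyn Pool.Agent.ANO3.Cnt

variable {X : Type} [MetricSpace X] {D : Subgroup (Equiv.Perm X)} {T : X ≃ₜ X}

private theorem perN_smul_Main (h : Norm D T) {n : ℕ} {x : X} (hx : x ∈ perN D T n)
    {a : Equiv.Perm X} (ha : a ∈ D) : a x ∈ perN D T n := by
  obtain ⟨b, hb, h1⟩ := hx
  obtain ⟨c, hc, h2⟩ := h.zpow n a ha
  refine ⟨a * b * c⁻¹, D.mul_mem (D.mul_mem ha hb) (D.inv_mem hc), ?_⟩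
  have h3 : c⁻¹ (c ((T ^ n) x)) = (T ^ n) x := c.symm_apply_apply _
  have h4 := h2 x
  rw [zpow_natCast] at h4
  rw [h4, Equiv.Perm.mul_apply, Equiv.Perm.mul_apply, h3, h1]

/-- The numbers of periodic points are supermultiplicative, up to a constant. -/
theorem concat (h : Norm D T) (he : Expansive T) (hs : Shadowing T) {ρ : ℝ} (hρ : 0 < ρ)
    (hinj : ∀ a ∈ D, ∀ x, dist (a x) x < ρ → a = 1) {K : Set X} (hK : IsCompact K)
    (hK' : ∀ n : ℕ, 0 < n → ∀ x ∈ perN D T n, ∃ a ∈ D, a x ∈ K) :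
    ∃ Q : ℕ, 0 < Q ∧ ∀ n : ℕ, 0 < n →
      ((fun q => MulAction.orbit D q) '' perN D T n).encard *
          ((fun q => MulAction.orbit D q) '' perN D T n).encard ≤
        Q * ((fun q => MulAction.orbit D q) '' perN D T (2 * n)).encard := by
  classical
  obtain ⟨e, he0, he1⟩ := he
  have hε : 0 < min (e / 2) (ρ / 8) := lt_min (by linarith) (by linarith)
  obtain ⟨δ, hδ, hrel⟩ := exists_rel h ⟨e, he0, he1⟩ hs hε
  have hη : 0 < min δ (ρ / 8) / 2 := half_pos (lt_min hδ (by linarith))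
  obtain ⟨t, -, htf, htK⟩ := hK.finite_cover_balls hη
  obtain ⟨F, rfl⟩ := htf.exists_finset_coe
  have key : ∀ n : ℕ, 0 < n → ∀ s : Finset (Set X),
      (s : Set (Set X)) ⊆ (fun q => MulAction.orbit D q) '' perN D T n →
      ((s.card * s.card : ℕ) : ℕ∞) ≤ ((F.card * F.card : ℕ) : ℕ∞) *
        ((fun q => MulAction.orbit D q) '' perN D T (2 * n)).encard := by
    intro n hn s hs'
    rcases s.eq_empty_or_nonempty with rfl | ⟨o₀, ho₀⟩
    · simp
    obtain ⟨x₀, -, -⟩ := hs' (Finset.mem_coe.2 ho₀)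
    haveI : Nonempty X := ⟨x₀⟩
    have h1 : ∀ o ∈ s, ∃ x : X, ∃ y : X, ∃ a : Equiv.Perm X,
        MulAction.orbit D x = o ∧ y ∈ F ∧
          x ∈ Metric.ball y (min δ (ρ / 8) / 2) ∧ a ∈ D ∧ a ((T ^ n) x) = x := by
      intro o ho
      obtain ⟨x, hx, hxo⟩ := hs' (Finset.mem_coe.2 ho)
      obtain ⟨a, ha, hax⟩ := hK' n hn x hx
      obtain ⟨y, hy, hxy⟩ := Set.mem_iUnion₂.1 (htK hax)
      obtain ⟨b, hb, hbx⟩ := perN_smul_Main h hx ha
      refine ⟨a x, y, b, ?_, Finset.mem_coe.1 hy, hxy, hb, hbx⟩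
      rw [← hxo]
      exact MulAction.orbit_smul (⟨a, ha⟩ : D) x
    choose! r c a hr hc hrc ha har using h1
    obtain ⟨y, hy, hmax⟩ := Finset.exists_max_image F (fun y => (s.filter fun o => c o = y).card)
      ⟨c o₀, hc o₀ ho₀⟩
    set A : Finset (Set X) := s.filter fun o => c o = y with hA
    have hcard : s.card ≤ A.card * F.card :=
      Finset.card_le_mul_card_image_of_maps_to hc _ hmax
    have hAs : ∀ o ∈ A, o ∈ s := fun o ho => (Finset.mem_filter.1 ho).1
    have hd : ∀ o ∈ A, ∀ o' ∈ A, dist (r o) (r o') ≤ min δ (ρ / 8) := by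
      intro o ho o' ho'
      have h2 := hrc o (hAs o ho)
      have h3 := hrc o' (hAs o' ho')
      rw [(Finset.mem_filter.1 ho).2, Metric.mem_ball] at h2
      rw [(Finset.mem_filter.1 ho').2, Metric.mem_ball] at h3
      have h4 := dist_triangle_right (r o) (r o') y
      linarith
    have h2 : ∀ q : Set X × Set X, q ∈ A ×ˢ A → ∃ z, Rel D T (min (e / 2) (ρ / 8)) n (a q.1)
        (a q.2) (r q.1) (r q.2) z := by
      intro q hq
      obtain ⟨hq1, hq2⟩ := Finset.mem_product.1 hq
      exact hrel n _ _ _ _ hn (ha _ (hAs _ hq1)) (ha _ (hAs _ hq2)) (har _ (hAs _ hq1))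
        (har _ (hAs _ hq2)) ((hd _ hq1 _ hq2).trans (min_le_left _ _))
    choose! z hz using h2
    have h3 : ((A ×ˢ A).image fun q => MulAction.orbit D (z q)).card = A.card * A.card := by
      rw [Finset.card_image_of_injOn, Finset.card_product]
      intro q hq q' hq' hqq
      rw [Finset.mem_coe] at hq hq'
      obtain ⟨hq1, hq2⟩ := Finset.mem_product.1 hq
      obtain ⟨hq1', hq2'⟩ := Finset.mem_product.1 hq'
      have h4 : z q' ∈ MulAction.orbit D (z q) := by
        have h5 : MulAction.orbit D (z q) = MulAction.orbit D (z q') := hqq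
        rw [h5]
        exact MulAction.mem_orbit_self _
      obtain ⟨⟨b, hb⟩, hbz⟩ := h4
      have hbz' : b (z q) = z q' := hbz
      obtain ⟨h5, h6⟩ := rel_inj h he0 he1 hρ hinj hn (hz q hq) (hz q' hq')
        ((hd _ hq1 _ hq1').trans (min_le_right _ _)) ((hd _ hq2 _ hq2').trans (min_le_right _ _))
        hb hbz'
      refine Prod.ext ?_ ?_
      · rw [← hr _ (hAs _ hq1), ← hr _ (hAs _ hq1'), h5]
      · rw [← hr _ (hAs _ hq2), ← hr _ (hAs _ hq2'), h6]
    have h4 : (((A ×ˢ A).image fun q => MulAction.orbit D (z q) : Finset (Set X)) :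
        Set (Set X)) ⊆ (fun q => MulAction.orbit D q) '' perN D T (2 * n) := by
      intro o ho
      obtain ⟨q, hq, rfl⟩ := Finset.mem_image.1 (Finset.mem_coe.1 ho)
      obtain ⟨b, hb, -, hb'⟩ := (hz q hq).ex
      exact ⟨z q, ⟨_, D.inv_mem (D.mul_mem hb (D.inv_mem (hz q hq).memq)), hb'⟩, rfl⟩
    have h5 := Set.encard_le_encard h4
    rw [Set.encard_coe_eq_coe_finsetCard, h3] at h5
    calc ((s.card * s.card : ℕ) : ℕ∞) ≤ (((A.card * F.card) * (A.card * F.card) : ℕ) : ℕ∞) :=
          Nat.cast_le.2 (Nat.mul_le_mul hcard hcard)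
      _ = ((F.card * F.card : ℕ) : ℕ∞) * ((A.card * A.card : ℕ) : ℕ∞) := by
          rw [← Nat.cast_mul]
          congr 1
          ring
      _ ≤ _ := mul_le_mul_right h5 _
  refine ⟨F.card * F.card + 1, Nat.succ_pos _, fun n hn => ?_⟩
  have key' : ∀ s : Finset (Set X),
      (s : Set (Set X)) ⊆ (fun q => MulAction.orbit D q) '' perN D T n →
      ((s.card * s.card : ℕ) : ℕ∞) ≤ ((F.card * F.card + 1 : ℕ) : ℕ∞) *
        ((fun q => MulAction.orbit D q) '' perN D T (2 * n)).encard := fun s hs' =>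
    (key n hn s hs').trans (mul_le_mul_left (Nat.cast_le.2 (Nat.le_succ _)) _)
  by_cases hfin : ((fun q => MulAction.orbit D q) '' perN D T n).Finite
  · obtain ⟨s, hs'⟩ := hfin.exists_finset_coe
    have h1 := key' s hs'.subset
    rw [← hs', Set.encard_coe_eq_coe_finsetCard, ← Nat.cast_mul]
    exact h1
  · by_cases hfin2 : ((fun q => MulAction.orbit D q) '' perN D T (2 * n)).Finite
    · exfalso
      obtain ⟨s2, hs2⟩ := hfin2.exists_finset_coe
      obtain ⟨s, hs', hcard⟩ := Set.Infinite.exists_subset_card_eq hfin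
        ((F.card * F.card + 1) * s2.card + 1)
      have h1 := key' s hs'
      rw [← hs2, Set.encard_coe_eq_coe_finsetCard, ← Nat.cast_mul, Nat.cast_le, hcard] at h1
      nlinarith
    · rw [Set.encard_eq_top_iff.2 hfin2]
      have h1 : ((F.card * F.card + 1 : ℕ) : ℕ∞) ≠ 0 := Nat.cast_ne_zero.2 (Nat.succ_ne_zero _)
      rw [ENat.mul_top h1]
      exact le_top

end Pool.Agent.ANO5.Conc
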