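import Pool.Agent.ANO5.Conc.Close

/-!
# ANO5, module Conc: concatenation of periodic orbits, the relation (package CONC-REL)

`perN D T n` is the set of the points `x` with `a ((T ^ n) x) = x` for some `a ∈ D`, `P n` the
number of orbits of `D` on it.  Hypotheses: `Norm D T`, expansivity, shadowing; `hinj`: `D` acts
freely with a uniform injectivity radius `ρ`; `hK`: every point of `perN D T n` is `a x`, `x ∈ K`
compact.  CLAIM (file `Main.lean`): there is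
`Q : ℕ` with `P n * P n ≤ Q * P (2 n)` for all `n > 0`.

`perN_two`: the concatenation of two orbits which start close to each other.  Let `e > 0` be the
constant of `Expansive T`.  There is `η > 0` such that: if `n > 0`, `p, q, p', q'` have mutual
distances `≤ η`, `a_p ((T ^ n) p) = p`, and the same for `q, p', q'` with `a_q, a_p', a_q' ∈ D`, and
`c, c'` are related to `(p, q)`, `(p', q')` as in `Rel` below, and `b ∈ D`, `b c = c'`, then
`p = p'`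
and `q = q'`.
`Rel ε n p q c` (for given `a_p`, `a_q`): with `b' ∈ D` such that
`(T ^ n) (a_p⁻¹ x) = b' ((T ^ n) x)` for all `x`, and `a = (b' * a_q⁻¹)⁻¹`: `a ((T ^ (2 n)) c) = c`,
`dist ((T ^ j) c) ((T ^ j) p) ≤ ε` for `j < n` and `dist ((T ^ (n + j)) c) ((T ^ j) (a_p⁻¹ q)) ≤ ε`
for `j < n`.

PROOF OF `exists_rel` (existence of `c`): `closing_two` for the points `p` and `a_p⁻¹ q`:
`dist ((T ^ n) p) (a_p⁻¹ q) = dist (a_p⁻¹ p) (a_p⁻¹ q) = dist p q ≤ δ` and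
`(T ^ n) (a_p⁻¹ q) = b' ((T ^ n) q) = b' (a_q⁻¹ q)`, so `a ((T ^ n) (a_p⁻¹ q)) = q` and
`dist q p ≤ δ`.

PROOF OF `rel_inj`.  Let `ε = min (e / 2) (ρ / 8)` and `η = ρ / 8`.  `dist c' c ≤ dist c' p' +
dist p' p + dist p c ≤ 2 ε + η < ρ`, `c' = b c`, so `b = 1` and `c' = c`.  Then
`dist ((T ^ j) p) ((T ^ j) p') ≤ 2 ε` for `0 ≤ j < n`, and
`dist (a_p⁻¹ q) (a_p'⁻¹ q') ≤ 2 ε` (`j = 0` in the second part).  Hence
`dist (a_p⁻¹ q) (a_p'⁻¹ q) ≤ 2 ε + η < ρ` (`dist (a_p'⁻¹ q') (a_p'⁻¹ q) = dist q' q ≤ η`), so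
with `x = a_p⁻¹ q`: `dist ((a_p'⁻¹ * a_p) x) x < ρ` and `a_p' = a_p`.  Since
`(T ^ n) p = a_p⁻¹ p` and `(T ^ n) p' = a_p⁻¹ p'`, for all `j : ℤ`
`dist ((T ^ (j + n)) p) ((T ^ (j + n)) p') = dist ((T ^ j) (a_p⁻¹ p)) ((T ^ j) (a_p⁻¹ p')) =
dist ((T ^ j) p) ((T ^ j) p')` (`Norm.zpow` and isometry).  So the distance is `≤ 2 ε ≤ e` for all
`j : ℤ` and `p = p'`.  The elements `b'` for `a_p` and `a_p'` are equal (freeness: `hinj` with
distance `0`), `a ((T ^ (2 n)) c) = c = a' ((T ^ (2 n)) c)` gives `a = a'` (freeness), so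
`a_q = a_q'`.  For `0 ≤ j < n`:
`dist ((T ^ j) q) ((T ^ j) q') = dist ((T ^ j) (a_p⁻¹ q)) ((T ^ j) (a_p⁻¹ q')) ≤ 2 ε`, and as before
`q = q'`.

-/

set_option autoImplicit false

open Set Filter Topology

namespace Pool.Agent.ANO5.Conc

open Pool.Agent.ANO.Dyn Pool.Agent.ANO3.Cnt

variable {X : Type} [MetricSpace X] {D : Subgroup (Equiv.Perm X)} {T : X ≃ₜ X}

/-- The points which are periodic with period `n` modulo `D`. -/
def perN (D : Subgroup (Equiv.Perm X)) (T : X ≃ₜ X) (n : ℕ) : Set X :=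
  {x | ∃ a ∈ D, a ((T ^ n) x) = x}

/-- `c` is a point which follows the orbit of `p` and then the orbit of `q`. -/
structure Rel (D : Subgroup (Equiv.Perm X)) (T : X ≃ₜ X) (ε : ℝ) (n : ℕ)
    (ap aq : Equiv.Perm X) (p q c : X) : Prop where
  memp : ap ∈ D
  memq : aq ∈ D
  fixp : ap ((T ^ n) p) = p
  fixq : aq ((T ^ n) q) = q
  ex : ∃ b ∈ D, (∀ x, (T ^ n) ((ap⁻¹ : Equiv.Perm X) x) = b ((T ^ n) x)) ∧
    ((b * aq⁻¹)⁻¹ : Equiv.Perm X) ((T ^ (2 * n)) c) = c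
  near : ∀ j : ℕ, j < n → dist ((T ^ j) c) ((T ^ j) p) ≤ ε
  near' : ∀ j : ℕ, j < n →
    dist ((T ^ (n + j)) c) ((T ^ j) ((ap⁻¹ : Equiv.Perm X) q)) ≤ ε

private theorem npow_Rel (h : Norm D T) (n : ℕ) {a : Equiv.Perm X} (ha : a ∈ D) :
    ∃ a' ∈ D, ∀ x, (T ^ n) (a x) = a' ((T ^ n) x) := by
  obtain ⟨a', h1, h2⟩ := h.zpow (n : ℤ) a ha
  refine ⟨a', h1, fun x => ?_⟩
  have h3 := h2 x
  rwa [zpow_natCast] at h3

omit [MetricSpace X] in
private theorem inv_of_fix_Rel {a : Equiv.Perm X} {x y : X} (h : a x = y) :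
    x = (a⁻¹ : Equiv.Perm X) y := by
  rw [← h]
  exact (a.symm_apply_apply x).symm

/-- two orbits with the same return element which are close for one period are always close -/
private theorem periodic_Rel (h : Norm D T) {g : Equiv.Perm X} (hg : g ∈ D) {n : ℕ} (hn : 0 < n)
    {x y : X} (hx : (T ^ n) x = g x) (hy : (T ^ n) y = g y) {r : ℝ}
    (hr : ∀ j : ℕ, j < n → dist ((T ^ j) x) ((T ^ j) y) ≤ r) :
    ∀ j : ℤ, dist ((T ^ j) x) ((T ^ j) y) ≤ r := by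
  have hn' : (0 : ℤ) < n := by exact_mod_cast hn
  have hper : Function.Periodic (fun j : ℤ => dist ((T ^ j) x) ((T ^ j) y)) (n : ℤ) := by
    intro j
    obtain ⟨g', h1, h2⟩ := h.zpow j g hg
    have e : ∀ z, (T ^ (j + (n : ℤ))) z = (T ^ j) ((T ^ n) z) := by
      intro z
      rw [zpow_add, zpow_natCast]
      rfl
    show dist ((T ^ (j + (n : ℤ))) x) ((T ^ (j + (n : ℤ))) y) = dist ((T ^ j) x) ((T ^ j) y)
    rw [e, e, hx, hy, h2, h2, h.iso g' h1]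
  intro j
  have h1 := Int.emod_nonneg j hn'.ne'
  have h2 := Int.emod_lt_of_pos j hn'
  have h3 : j = j % n + (j / n) • (n : ℤ) := by
    rw [smul_eq_mul, mul_comm]
    exact (Int.emod_add_mul_ediv j n).symm
  have h4 := hper.zsmul (j / n) (j % n)
  rw [← h3] at h4
  have h5 : ((j % n).toNat : ℤ) = j % n := Int.toNat_of_nonneg h1
  have h6 := hr (j % n).toNat (by omega)
  have h7 : dist ((T ^ j) x) ((T ^ j) y) = dist ((T ^ (j % (n : ℤ))) x) ((T ^ (j % (n : ℤ))) y) :=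
    h4
  rw [h7, ← h5, zpow_natCast]
  exact h6

theorem exists_rel (h : Norm D T) (he : Expansive T) (hs : Shadowing T) {ε : ℝ} (hε : 0 < ε) :
    ∃ δ > 0, ∀ (n : ℕ) (ap aq : Equiv.Perm X) (p q : X), 0 < n → ap ∈ D → aq ∈ D →
      ap ((T ^ n) p) = p → aq ((T ^ n) q) = q → dist p q ≤ δ →
      ∃ c, Rel D T ε n ap aq p q c := by
  obtain ⟨δ, hδ, H⟩ := closing_two h he hs hε
  refine ⟨δ, hδ, fun n ap aq p q hn hap haq hp hq hd => ?_⟩
  have hp' := inv_of_fix_Rel hp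
  have hq' := inv_of_fix_Rel hq
  obtain ⟨b, hb, hbx⟩ := npow_Rel h n (D.inv_mem hap)
  obtain ⟨c, hc1, hc2, hc3⟩ := H ((b * aq⁻¹)⁻¹) (D.inv_mem (D.mul_mem hb (D.inv_mem haq))) n p
    ((ap⁻¹ : Equiv.Perm X) q) hn (by rw [hp', h.iso _ (D.inv_mem hap)]; exact hd) (by
      have e : ((b * aq⁻¹)⁻¹ : Equiv.Perm X) ((T ^ n) ((ap⁻¹ : Equiv.Perm X) q)) = q := by
        rw [hbx, hq']
        exact (b * aq⁻¹).symm_apply_apply q
      rw [e, dist_comm]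
      exact hd)
  exact ⟨c, hap, haq, hp, hq, ⟨b, hb, hbx, hc1⟩, hc2, hc3⟩

theorem rel_inj (h : Norm D T) {e ρ : ℝ} (he0 : 0 < e)
    (he : ∀ x y, (∀ j : ℤ, dist ((T ^ j) x) ((T ^ j) y) ≤ e) → x = y) (hρ : 0 < ρ)
    (hinj : ∀ a ∈ D, ∀ x, dist (a x) x < ρ → a = 1) {n : ℕ} (hn : 0 < n)
    {ap aq ap' aq' : Equiv.Perm X} {p q p' q' c c' : X}
    (h1 : Rel D T (min (e / 2) (ρ / 8)) n ap aq p q c)
    (h2 : Rel D T (min (e / 2) (ρ / 8)) n ap' aq' p' q' c') (h3 : dist p p' ≤ ρ / 8)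
    (h4 : dist q q' ≤ ρ / 8) {b : Equiv.Perm X} (hb : b ∈ D) (hbc : b c = c') :
    p = p' ∧ q = q' := by
  have _ := he0
  obtain ⟨ε, hε⟩ : ∃ ε, ε = min (e / 2) (ρ / 8) := ⟨_, rfl⟩
  rw [← hε] at h1 h2
  have hε1 : ε ≤ e / 2 := hε ▸ min_le_left _ _
  have hε2 : ε ≤ ρ / 8 := hε ▸ min_le_right _ _
  -- step 1
  have hcc : c = c' := by
    have k1 : dist c p ≤ ε := h1.near 0 hn
    have k2 : dist c' p' ≤ ε := h2.near 0 hn
    have k3 : dist (b c) c < ρ := by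
      rw [hbc]
      have k4 := dist_triangle4 c' p' p c
      rw [dist_comm p' p, dist_comm p c] at k4
      linarith
    have k5 := hinj b hb c k3
    rw [k5] at hbc
    exact hbc
  subst hcc
  -- step 2
  have hpp : ∀ j : ℕ, j < n → dist ((T ^ j) p) ((T ^ j) p') ≤ 2 * ε := by
    intro j hj
    have k1 := dist_triangle_left ((T ^ j) p) ((T ^ j) p') ((T ^ j) c)
    have k2 := h1.near j hj
    have k3 := h2.near j hj
    linarith
  have hqq : ∀ j : ℕ, j < n → dist ((T ^ j) ((ap⁻¹ : Equiv.Perm X) q))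
      ((T ^ j) ((ap'⁻¹ : Equiv.Perm X) q')) ≤ 2 * ε := by
    intro j hj
    have k1 := dist_triangle_left ((T ^ j) ((ap⁻¹ : Equiv.Perm X) q))
      ((T ^ j) ((ap'⁻¹ : Equiv.Perm X) q')) ((T ^ (n + j)) c)
    have k2 := h1.near' j hj
    have k3 := h2.near' j hj
    linarith
  -- step 3
  have hap : ap = ap' := by
    have k1 : dist ((ap⁻¹ : Equiv.Perm X) q) ((ap'⁻¹ : Equiv.Perm X) q') ≤ 2 * ε := hqq 0 hn
    have k2 : dist ((ap'⁻¹ : Equiv.Perm X) q') ((ap'⁻¹ : Equiv.Perm X) q) ≤ ρ / 8 := by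
      rw [h.iso _ (D.inv_mem h2.memp), dist_comm]
      exact h4
    have k3 : dist ((ap'⁻¹ * ap : Equiv.Perm X) ((ap⁻¹ : Equiv.Perm X) q))
        ((ap⁻¹ : Equiv.Perm X) q) < ρ := by
      have k4 : (ap'⁻¹ * ap : Equiv.Perm X) ((ap⁻¹ : Equiv.Perm X) q) =
          (ap'⁻¹ : Equiv.Perm X) q := by
        show (ap'⁻¹ : Equiv.Perm X) (ap ((ap⁻¹ : Equiv.Perm X) q)) = _
        congr 1
        exact ap.apply_symm_apply q
      rw [k4, dist_comm]
      have k5 := dist_triangle ((ap⁻¹ : Equiv.Perm X) q) ((ap'⁻¹ : Equiv.Perm X) q')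
        ((ap'⁻¹ : Equiv.Perm X) q)
      linarith
    have k6 := hinj _ (D.mul_mem (D.inv_mem h2.memp) h1.memp) _ k3
    exact (inv_mul_eq_one.1 k6).symm
  subst hap
  -- step 4
  have hpeq : p = p' := by
    refine he p p' fun j => ?_
    have k1 := periodic_Rel h (D.inv_mem h1.memp) hn (inv_of_fix_Rel h1.fixp)
      (inv_of_fix_Rel h2.fixp) hpp j
    linarith
  refine ⟨hpeq, ?_⟩
  -- step 5
  obtain ⟨b1, -, hx1, hc1⟩ := h1.ex
  obtain ⟨b2, -, hx2, hc2⟩ := h2.ex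
  have hbb : b1 = b2 := by
    ext y
    have k1 := hx1 ((T ^ n).symm y)
    have k2 := hx2 ((T ^ n).symm y)
    rw [(T ^ n).apply_symm_apply] at k1 k2
    rw [← k1, ← k2]
  subst hbb
  have haq : aq = aq' := by
    have m1 : ((b1 * aq'⁻¹) * (b1 * aq⁻¹)⁻¹ : Equiv.Perm X) ∈ D := by
      have e : ((b1 * aq'⁻¹) * (b1 * aq⁻¹)⁻¹ : Equiv.Perm X) = b1 * (aq'⁻¹ * aq) * b1⁻¹ := by
        group
      rw [e]
      obtain ⟨b3, hb3, hx3⟩ := npow_Rel h n (D.inv_mem h1.memp)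
      have hb13 : b1 = b3 := by
        ext y
        have k1 := hx1 ((T ^ n).symm y)
        have k2 := hx3 ((T ^ n).symm y)
        rw [(T ^ n).apply_symm_apply] at k1 k2
        rw [← k1, ← k2]
      rw [hb13]
      exact D.mul_mem (D.mul_mem hb3 (D.mul_mem (D.inv_mem h2.memq) h1.memq)) (D.inv_mem hb3)
    have k2 : dist (((b1 * aq'⁻¹) * (b1 * aq⁻¹)⁻¹ : Equiv.Perm X) ((T ^ (2 * n)) c))
        ((T ^ (2 * n)) c) < ρ := by
      have k3 : ((b1 * aq'⁻¹) * (b1 * aq⁻¹)⁻¹ : Equiv.Perm X) ((T ^ (2 * n)) c) =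
          (T ^ (2 * n)) c := by
        show (b1 * aq'⁻¹ : Equiv.Perm X) (((b1 * aq⁻¹)⁻¹ : Equiv.Perm X) ((T ^ (2 * n)) c)) = _
        rw [hc1]
        have k4 := inv_of_fix_Rel hc2
        rw [inv_inv] at k4
        exact k4.symm
      rw [k3, dist_self]
      exact hρ
    have k5 := hinj _ m1 _ k2
    have k6 : b1 * aq'⁻¹ = b1 * aq⁻¹ := mul_inv_eq_one.1 k5
    exact (inv_injective (mul_left_cancel k6)).symm
  subst haq
  -- step 6
  refine he q q' fun j => ?_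
  have k1 := periodic_Rel h (D.inv_mem h1.memq) hn (inv_of_fix_Rel h1.fixq)
    (inv_of_fix_Rel h2.fixq) (r := 2 * ε) (fun j hj => by
      obtain ⟨d, hd1, hd2⟩ := npow_Rel h j (D.inv_mem h1.memp)
      have k2 := hqq j hj
      rwa [hd2, hd2, h.iso d hd1] at k2) j
  linarith

end Pool.Agent.ANO5.Conc
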